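import Mathlib

/-! Fourier transforms of finitely supported measures on the circle. -/

namespace Pool.Agent.P.MP_f7f1a6_co.Z

open Finset ComplexConjugate

/-- `c` is the transform of a finitely supported measure on the `q`-th roots of unity (any points
of the circle when `q = 0`). -/
def PD (q : ℕ) (c : ℤ → ℂ) : Prop :=
  ∃ (ι : Type) (_ : Fintype ι) (w : ι → ℝ) (z : ι → Circle), (∀ i, 0 ≤ w i) ∧ (∀ i, z i ^ q = 1) ∧
    ∀ s, c s = ∑ i, (w i : ℂ) * (z i : ℂ) ^ s

variable {q q' : ℕ} {c c' : ℤ → ℂ}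

lemma PD.mono (h : PD q c) (hq : q ∣ q') : PD q' c := by
  obtain ⟨ι, _, w, z, hw, hz, hc⟩ := h
  obtain ⟨k, rfl⟩ := hq
  exact ⟨ι, _, w, z, hw, fun i => by rw [pow_mul, hz, one_pow], hc⟩

lemma PD.zero : PD q fun _ => 0 :=
  ⟨Empty, inferInstance, fun i => i.elim, fun i => i.elim, fun i => i.elim, fun i => i.elim,
    fun s => by simp⟩

lemma PD.pt (z : Circle) (hz : z ^ q = 1) : PD q fun s => (z : ℂ) ^ s :=
  ⟨Unit, inferInstance, fun _ => 1, fun _ => z, fun _ => zero_le_one, fun _ => hz,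
    fun s => by simp⟩

lemma PD.add (h : PD q c) (h' : PD q c') : PD q fun s => c s + c' s := by
  obtain ⟨ι, _, w, z, hw, hz, hc⟩ := h
  obtain ⟨ι', _, w', z', hw', hz', hc'⟩ := h'
  refine ⟨ι ⊕ ι', inferInstance, Sum.elim w w', Sum.elim z z', ?_, ?_, fun s => ?_⟩
  · rintro (i | i)
    exacts [hw i, hw' i]
  · rintro (i | i)
    exacts [hz i, hz' i]
  · rw [Fintype.sum_sum_type]
    simp [hc, hc']

lemma PD.mul (h : PD q c) (h' : PD q c') : PD q fun s => c s * c' s := by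
  obtain ⟨ι, _, w, z, hw, hz, hc⟩ := h
  obtain ⟨ι', _, w', z', hw', hz', hc'⟩ := h'
  refine ⟨ι × ι', inferInstance, fun p => w p.1 * w' p.2, fun p => z p.1 * z' p.2,
    fun p => mul_nonneg (hw _) (hw' _), fun p => by rw [mul_pow, hz, hz', one_mul], fun s => ?_⟩
  rw [Fintype.sum_prod_type]
  simp only [hc, hc', sum_mul_sum, Circle.coe_mul, mul_zpow, Complex.ofReal_mul]
  exact sum_congr rfl fun i _ => sum_congr rfl fun j _ => by ring

lemma PD.smul (h : PD q c) {r : ℝ} (hr : 0 ≤ r) : PD q fun s => r * c s := by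
  obtain ⟨ι, _, w, z, hw, hz, hc⟩ := h
  refine ⟨ι, inferInstance, fun i => r * w i, z, fun i => mul_nonneg hr (hw i), hz, fun s => ?_⟩
  simp only [hc, mul_sum, Complex.ofReal_mul, mul_assoc]

lemma conj_pt (z : Circle) (s : ℤ) : conj ((z : ℂ) ^ s) = (z : ℂ) ^ (-s) := by
  rw [map_zpow₀, ← Circle.coe_inv_eq_conj, Circle.coe_inv, inv_zpow']

lemma PD.neg (h : PD q c) (s : ℤ) : c (-s) = conj (c s) := by
  obtain ⟨ι, _, w, z, -, -, hc⟩ := h
  simp only [hc, map_sum, map_mul, Complex.conj_ofReal, conj_pt]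

lemma PD.re (h : PD q c) : PD q fun s => ((c s).re : ℂ) := by
  have h1 : PD q fun s => c (-s) := by
    obtain ⟨ι, _, w, z, hw, hz, hc⟩ := h
    refine ⟨ι, inferInstance, w, fun i => (z i)⁻¹, hw, fun i => by rw [inv_pow, hz, inv_one], fun s => ?_⟩
    simp only [hc, Circle.coe_inv, inv_zpow']
  have h2 := (h.add h1).smul (r := 1 / 2) (by norm_num)
  convert h2 using 2 with s
  rw [h.neg, Complex.add_conj]
  push_cast
  ring

lemma PD.norm_le (h : PD q c) (s : ℤ) : ‖c s‖ ≤ (c 0).re := by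
  obtain ⟨ι, _, w, z, hw, -, hc⟩ := h
  rw [hc, hc, Complex.re_sum]
  refine (norm_sum_le _ _).trans (sum_le_sum fun i _ => ?_)
  simp [norm_zpow, abs_of_nonneg (hw i)]

lemma PD.per (h : PD q c) (x : ℤ) {y : ℤ} (hy : (q : ℤ) ∣ y) : c (x - y) = c x := by
  obtain ⟨ι, _, w, z, -, hz, hc⟩ := h
  obtain ⟨k, rfl⟩ := hy
  rw [hc, hc]
  refine sum_congr rfl fun i _ => ?_
  have : (z i : ℂ) ^ (q : ℤ) = 1 := by
    rw [zpow_natCast, ← Circle.coe_pow, hz, Circle.coe_one]
  rw [zpow_sub₀ (z i).coe_ne_zero, zpow_mul, this, one_zpow, div_one]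

lemma PD.shift (h : PD q c) (r : ℝ) (t : ℤ) :
    PD q fun s => 2 * (|r| : ℝ) * c s + r * c (s - t) + r * c (s + t) := by
  obtain ⟨ι, _, w, z, hw, hz, hc⟩ := h
  refine ⟨ι, inferInstance, fun i => w i * (2 * |r| + 2 * r * ((z i : ℂ) ^ t).re), z, fun i => ?_, hz,
    fun s => ?_⟩
  · refine mul_nonneg (hw i) ?_
    have h1 : |((z i : ℂ) ^ t).re| ≤ 1 := by
      simpa [norm_zpow, Circle.norm_coe] using Complex.abs_re_le_norm ((z i : ℂ) ^ t)
    have h2 : |r * ((z i : ℂ) ^ t).re| ≤ |r| := by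
      rw [abs_mul]
      exact mul_le_of_le_one_right (abs_nonneg r) h1
    linarith [neg_abs_le (r * ((z i : ℂ) ^ t).re)]
  · simp only [hc, mul_sum, ← sum_add_distrib]
    refine sum_congr rfl fun i _ => ?_
    have h1 := Complex.add_conj ((z i : ℂ) ^ t)
    rw [conj_pt] at h1
    rw [sub_eq_add_neg, zpow_add₀ (z i).coe_ne_zero, zpow_add₀ (z i).coe_ne_zero]
    push_cast at h1 ⊢
    linear_combination (r * w i * (z i : ℂ) ^ s) * h1

lemma half_pt {N : ℤ} (hN : N ≠ 0) : (Circle.exp (Real.pi / N) : ℂ) ^ N = -1 := by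
  have : (N : ℝ) ≠ 0 := by exact_mod_cast hN
  rw [← Circle.coe_zpow, ← Circle.exp_intCast_mul, mul_div_cancel₀ _ this, Circle.coe_exp,
    Complex.exp_pi_mul_I]

lemma exists_kill (T : Finset ℤ) :
    ∃ h, PD 0 h ∧ h 0 = 1 ∧ ∀ s ∈ T, s ≠ 0 → h s = 0 := by
  induction T using Finset.induction_on with
  | empty => exact ⟨_, PD.pt 1 (pow_zero _), by simp, by simp⟩
  | insert t T _ ih =>
    obtain ⟨h, h1, h2, h3⟩ := ih
    refine ⟨_, h1.mul (((PD.pt 1 (pow_zero _)).add
      (PD.pt (Circle.exp (Real.pi / t)) (pow_zero _))).smul (r := 1 / 2) (by norm_num)), ?_,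
      fun s hs hs0 => ?_⟩
    · simp only [h2, zpow_zero]
      push_cast
      ring
    · rcases mem_insert.1 hs with rfl | hs
      · simp only [half_pt hs0]
        simp
      · simp only [h3 s hs hs0, zero_mul]

/-- prescribed real values at finitely many positive integers -/
lemma exists_corr (F : Finset ℤ) (hF : ∀ s ∈ F, 0 < s) (v : ℤ → ℝ) :
    ∃ k, PD 0 k ∧ k 0 = (2 * ∑ s ∈ F, |v s| : ℝ) ∧ ∀ s ∈ F, k s = v s := by
  obtain ⟨h, h1, h2, h3⟩ := exists_kill
    (F ∪ F.image (fun s => 0 - s) ∪ (F ×ˢ F).image (fun p => p.1 - p.2) ∪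
      (F ×ˢ F).image (fun p => p.1 + p.2))
  have key : ∀ E ⊆ F, ∃ k, PD 0 k ∧ k 0 = (2 * ∑ s ∈ E, |v s| : ℝ) ∧
      ∀ s ∈ F, k s = if s ∈ E then (v s : ℂ) else 0 := by
    intro E
    induction E using Finset.induction_on with
    | empty => exact fun _ => ⟨_, PD.zero, by simp, by simp⟩
    | insert t E ht ih =>
      intro hE
      obtain ⟨k, k1, k2, k3⟩ := ih ((subset_insert _ _).trans hE)
      have htF : t ∈ F := hE (mem_insert_self _ _)
      have ht0 := hF t htF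
      refine ⟨_, k1.add (h1.shift (v t) t), ?_, fun s hs => ?_⟩
      · have a1 : h (0 - t) = 0 := h3 _ (by
          simp only [mem_union, mem_image]
          exact Or.inl (Or.inl (Or.inr ⟨t, htF, rfl⟩))) (by omega)
        have a2 : h (0 + t) = 0 := h3 _ (by simp [htF]) (by omega)
        simp only [k2, h2, a1, a2, sum_insert ht]
        push_cast
        ring
      · have hs0 := hF s hs
        have a1 : h s = 0 := h3 _ (by simp [hs]) (by omega)
        have a2 : h (s + t) = 0 := h3 _ (by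
          simp only [mem_union, mem_image]
          exact Or.inr ⟨(s, t), mem_product.2 ⟨hs, htF⟩, rfl⟩) (by omega)
        simp only [k3 s hs, a1, a2]
        by_cases hst : s = t
        · subst hst
          simp [ht, h2]
        · have a3 : h (s - t) = 0 := h3 _ (by
            simp only [mem_union, mem_image]
            exact Or.inl (Or.inr ⟨(s, t), mem_product.2 ⟨hs, htF⟩, rfl⟩)) (by omega)
          simp [a3, hst]
  obtain ⟨k, k1, k2, k3⟩ := key F Subset.rfl
  exact ⟨k, k1, k2, fun s hs => by rw [k3 s hs, if_pos hs]⟩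

/-- the function whose zeros are aimed at -/
noncomputable def G (z : ℂ) : ℝ := 1 / 16 + z.re + (z * z).re

lemma G_lip {z z' : ℂ} (h : ‖z‖ ≤ 1) (h' : ‖z'‖ ≤ 1) : |G z'| ≤ |G z| + 3 * ‖z' - z‖ := by
  have e : G z' = G z + ((z' - z) * (1 + z' + z)).re := by
    simp only [G, Complex.mul_re, Complex.add_re, Complex.sub_re, Complex.add_im, Complex.sub_im,
      Complex.one_re, Complex.one_im]
    ring
  have h1 : ‖1 + z' + z‖ ≤ 3 := by
    have := norm_add_le (1 + z') z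
    have := norm_add_le 1 z'
    rw [norm_one] at this
    linarith
  have h2 := Complex.abs_re_le_norm ((z' - z) * (1 + z' + z))
  rw [norm_mul] at h2
  have h3 := mul_le_mul_of_nonneg_left h1 (norm_nonneg (z' - z))
  rw [e]
  linarith [abs_add_le (G z) ((z' - z) * (1 + z' + z)).re]

lemma exists_mult {ι : Type} [Fintype ι] (w : ι → ℝ) (f : ι → ℂ) (hw : ∀ i, 0 ≤ w i)
    (h1 : ∑ i, w i = 1) (hf : ∀ i, ‖f i‖ = 1) :
    ∃ m : ι → ℝ, (∀ i, |m i| ≤ 1 / 2) ∧ G (∑ i, (w i * m i : ℝ) * f i) = 0 := by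
  have hre : ∀ m : ι → ℝ, (∑ i, ((w i * m i : ℝ) : ℂ) * f i).re = ∑ i, w i * (m i * (f i).re) := by
    intro m
    rw [Complex.re_sum]
    exact sum_congr rfl fun i _ => by rw [Complex.re_ofReal_mul, mul_assoc]
  have him : ∀ m : ι → ℝ, (∑ i, ((w i * m i : ℝ) : ℂ) * f i).im = ∑ i, w i * (m i * (f i).im) := by
    intro m
    rw [Complex.im_sum]
    exact sum_congr rfl fun i _ => by rw [Complex.im_ofReal_mul, mul_assoc]
  have hlow : ∀ m : ι → ℝ, (∀ i, |m i| ≤ 1 / 2) → -(1 / 2) ≤ ∑ i, w i * (m i * (f i).re) := by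
    intro m hm
    have : ∑ i, w i * (-(1 / 2)) ≤ ∑ i, w i * (m i * (f i).re) := sum_le_sum fun i _ => by
      refine mul_le_mul_of_nonneg_left ?_ (hw i)
      have a1 : |(f i).re| ≤ 1 := hf i ▸ Complex.abs_re_le_norm (f i)
      have a2 : |m i * (f i).re| ≤ 1 / 2 := by
        rw [abs_mul]
        nlinarith [abs_nonneg (m i), abs_nonneg (f i).re, hm i]
      linarith [neg_abs_le (m i * (f i).re)]
    rwa [← sum_mul, h1, one_mul] at this
  have hsg : ∀ x : ℝ, (if 0 ≤ x then (-(1 / 2) : ℝ) else 1 / 2) * x = -(1 / 2) * |x| := by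
    intro x
    split_ifs with h
    · rw [abs_of_nonneg h]
    · rw [abs_of_neg (not_le.1 h)]; ring
  have hab : ∀ x : ℝ, |(if 0 ≤ x then (-(1 / 2) : ℝ) else 1 / 2)| ≤ 1 / 2 := by
    intro x
    split_ifs <;> norm_num [abs_le]
  have hsum : ∀ g : ι → ℝ, ∑ i, w i * (-(1 / 2) * g i) = -(1 / 2) * ∑ i, w i * g i := by
    intro g
    rw [mul_sum]
    exact sum_congr rfl fun i _ => by ring
  have hPQ : 1 ≤ ∑ i, w i * |(f i).re| + ∑ i, w i * |(f i).im| := by
    rw [← sum_add_distrib, ← h1]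
    refine sum_le_sum fun i _ => ?_
    have := Complex.norm_le_abs_re_add_abs_im (f i)
    rw [hf i] at this
    nlinarith [hw i]
  obtain ⟨m, hm, hG⟩ : ∃ m : ι → ℝ, (∀ i, |m i| ≤ 1 / 2) ∧
      G (∑ i, (w i * m i : ℝ) * f i) ≤ 0 := by
    by_cases hP : 1 / 2 ≤ ∑ i, w i * |(f i).re|
    · refine ⟨fun i => if 0 ≤ (f i).re then -(1 / 2) else 1 / 2, fun i => hab _, ?_⟩
      have a1 := hlow _ fun i => hab (f i).re
      rw [G, Complex.mul_re, hre]
      simp only [hsg, hsum] at a1 ⊢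
      nlinarith [mul_self_nonneg (∑ i, ((w i * if 0 ≤ (f i).re then (-(1 / 2) : ℝ) else 1 / 2 : ℝ) : ℂ)
        * f i).im]
    · have a0 : ∀ m : ι → ℝ, (∀ i, |m i| ≤ 1 / 2) → ∑ i, w i * (m i * (f i).re) ≤ 0 →
          1 / 16 ≤ (∑ i, w i * (m i * (f i).im)) ^ 2 → G (∑ i, (w i * m i : ℝ) * f i) ≤ 0 := by
        intro m hm b1 b2
        have b3 := hlow m hm
        rw [G, Complex.mul_re, hre, him]
        nlinarith
      let m : ι → ℝ := fun i => if 0 ≤ (f i).im then -(1 / 2) else 1 / 2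
      have a1 : 1 / 16 ≤ (∑ i, w i * (m i * (f i).im)) ^ 2 := by
        simp only [m, hsg, hsum]
        nlinarith
      have hn : ∀ g : ι → ℝ, ∑ i, w i * (-m i * g i) = -∑ i, w i * (m i * g i) := by
        intro g
        rw [← sum_neg_distrib]
        exact sum_congr rfl fun i _ => by ring
      by_cases a2 : ∑ i, w i * (m i * (f i).re) ≤ 0
      · exact ⟨m, fun i => hab _, a0 m (fun i => hab _) a2 a1⟩
      · have a3 : ∀ i, |(-m i)| ≤ 1 / 2 := fun i => by rw [abs_neg]; exact hab _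
        refine ⟨fun i => -m i, a3, a0 _ a3 ?_ ?_⟩
        · rw [hn]; linarith
        · rw [hn, neg_sq]; exact a1
  have hc : Continuous fun t : ℝ => G (t * ∑ i, ((w i * m i : ℝ) : ℂ) * f i) := by
    unfold G
    fun_prop
  obtain ⟨t, ht, h0⟩ := intermediate_value_Icc' zero_le_one hc.continuousOn
    (show (0 : ℝ) ∈ Set.Icc _ _ from ⟨by simpa using hG, by simp [G]⟩)
  refine ⟨fun i => t * m i, fun i => ?_, ?_⟩
  · rw [abs_mul, abs_of_nonneg ht.1]
    nlinarith [abs_nonneg (m i), hm i, ht.1, ht.2]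
  · rw [← h0]
    simp only [mul_sum]
    congr 1
    exact sum_congr rfl fun i _ => by push_cast; ring

/-- the part of the measure that is moved and the part that stays -/
lemma PD.split (h : PD q c) (h0 : c 0 = 1) (x : ℤ) :
    ∃ u v, PD q u ∧ PD q v ∧ (∀ s, c s = u s + v s) ∧ G (u x - v x / 2) = 0 := by
  obtain ⟨ι, _, w, z, hw, hz, hc⟩ := h
  have h1 : ∑ i, w i = 1 := by
    rw [hc] at h0
    simp only [zpow_zero, mul_one] at h0
    exact_mod_cast h0
  obtain ⟨m, hm, hG⟩ := exists_mult w (fun i => (z i : ℂ) ^ x) hw h1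
    (fun i => by simp [norm_zpow])
  refine ⟨_, _,
    ⟨ι, inferInstance, fun i => w i * ((1 + 2 * m i) / 3), z, fun i => ?_, hz, fun _ => rfl⟩,
    ⟨ι, inferInstance, fun i => w i * ((2 - 2 * m i) / 3), z, fun i => ?_, hz, fun _ => rfl⟩,
    fun s => ?_, ?_⟩
  · exact mul_nonneg (hw i) (by linarith [(abs_le.1 (hm i)).1])
  · exact mul_nonneg (hw i) (by linarith [(abs_le.1 (hm i)).2])
  · rw [hc, ← sum_add_distrib]
    exact sum_congr rfl fun i _ => by push_cast; ring
  · rw [← hG, sum_div, ← sum_sub_distrib]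
    congr 1
    exact sum_congr rfl fun i _ => by push_cast; ring

/-- lacunary integers and points of the circle that read off their coefficients mod two -/
lemma exists_lac (hq : 0 < q) (M : ℤ) {η : ℝ} (hη : 0 < η) (d : ℕ) :
    ∃ (Q : ℕ) (n : Fin d → ℤ) (z : Fin d → Circle), 0 < Q ∧ q ∣ Q ∧ (∀ j, (q : ℤ) ∣ n j) ∧
      (∀ j, z j ^ Q = 1) ∧ ∀ (u : Fin d → ℤ) (x : ℤ), |x| ≤ M → (∀ i, |u i| ≤ 1) → ∀ j,
        ‖(z j : ℂ) ^ (x - ∑ i, u i * n i) - (-1) ^ u j‖ ≤ η := by
  induction d with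
  | zero => exact ⟨q, Fin.elim0, Fin.elim0, hq, dvd_rfl, fun j => j.elim0, fun j => j.elim0,
      fun _ _ _ _ j => j.elim0⟩
  | succ d ih =>
    obtain ⟨Q, n, z, hQ, hqQ, hn, hz, h⟩ := ih
    obtain ⟨L, hL⟩ := exists_nat_gt (Real.pi * |((M + ∑ i, |n i| : ℤ) : ℝ)| / η)
    have hL0 : 0 < L := by
      have : (0 : ℝ) < L := lt_of_le_of_lt (by positivity) hL
      exact_mod_cast this
    have hN : ((Q * L : ℕ) : ℤ) ≠ 0 := by positivity
    refine ⟨Q * L * 2, Fin.cons ((Q * L : ℕ) : ℤ) n,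
      Fin.cons (Circle.exp (Real.pi / ((Q * L : ℕ) : ℤ))) z, by positivity,
      (hqQ.mul_right _).mul_right _, fun j => ?_, fun j => ?_, fun u x hx hu j => ?_⟩
    · refine Fin.cases ?_ (fun j => hn j) j
      exact Int.natCast_dvd_natCast.2 (hqQ.mul_right _)
    · refine Fin.cases ?_ (fun j => ?_) j
      · apply Circle.ext
        rw [Fin.cons_zero, Circle.coe_pow, pow_mul, ← zpow_natCast _ (Q * L), half_pt hN]
        simp
      · rw [Fin.cons_succ, mul_assoc, pow_mul, hz, one_pow]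
    · have e : x - ∑ i, u i * (Fin.cons ((Q * L : ℕ) : ℤ) n : Fin (d + 1) → ℤ) i =
          (x - ∑ i : Fin d, u i.succ * n i) - ((Q * L : ℕ) : ℤ) * u 0 := by
        rw [Fin.sum_univ_succ]
        simp only [Fin.cons_zero, Fin.cons_succ]
        ring
      rw [e]
      refine Fin.cases ?_ (fun j => ?_) j
      · set y := x - ∑ i : Fin d, u i.succ * n i with hy
        have a1 : |y| ≤ M + ∑ i, |n i| := by
          have b1 : |∑ i : Fin d, u i.succ * n i| ≤ ∑ i, |n i| :=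
            (abs_sum_le_sum_abs _ _).trans (sum_le_sum fun i _ => by
              rw [abs_mul]
              exact mul_le_of_le_one_left (abs_nonneg _) (hu _))
          linarith [abs_sub x (∑ i : Fin d, u i.succ * n i)]
        have a2 : ((-1 : ℂ) ^ u 0)⁻¹ = (-1) ^ u 0 := by rw [← inv_zpow, inv_neg, inv_one]
        rw [Fin.cons_zero, zpow_sub₀ (Circle.coe_ne_zero _), zpow_mul, half_pt hN, div_eq_mul_inv,
          a2, ← sub_one_mul, norm_mul, norm_zpow, norm_neg, norm_one, one_zpow, mul_one,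
          ← Circle.coe_zpow, ← Circle.exp_intCast_mul, Circle.coe_exp, mul_comm]
        refine Real.norm_exp_I_mul_ofReal_sub_one_le.trans ?_
        have a3 : |(y : ℝ)| ≤ |((M + ∑ i, |n i| : ℤ) : ℝ)| := by
          refine le_trans ?_ (le_abs_self _)
          exact_mod_cast a1
        have a4 : (L : ℝ) ≤ (((Q * L : ℕ) : ℤ) : ℝ) := by
          have : L ≤ Q * L := Nat.le_mul_of_pos_left _ hQ
          exact_mod_cast this
        have a5 : (0 : ℝ) < L := by exact_mod_cast hL0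
        rw [div_lt_iff₀ hη] at hL
        rw [Real.norm_eq_abs, abs_mul, abs_of_pos (div_pos Real.pi_pos (a5.trans_le a4)),
          ← mul_div_assoc, div_le_iff₀ (a5.trans_le a4)]
        nlinarith [Real.pi_pos]
      · have a1 : (z j : ℂ) ^ ((Q * L : ℕ) : ℤ) = 1 := by
          rw [zpow_natCast, ← Circle.coe_pow, pow_mul, hz, one_pow, Circle.coe_one]
        rw [Fin.cons_succ, zpow_sub₀ (Circle.coe_ne_zero _), zpow_mul, a1, one_zpow, div_one]
        exact h (fun i => u i.succ) x hx (fun i => hu _) j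

end Pool.Agent.P.MP_f7f1a6_co.Z
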