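import Pool.Agent.P.MP_f7f1a6_co.Proof
import Pool.Agent.P.MP_f7f1a6_co.Z.PD

/-! A set of integers with all translates recurrent that is not a van der Corput set. -/

namespace Pool.Agent.P.MP_f7f1a6_co.Z

open Finset MeasureTheory
open scoped Pointwise

/-- the invariant of the construction -/
def Good (p : ℕ × (ℤ → ℂ) × Finset ℤ) : Prop :=
  0 < p.1 ∧ PD p.1 p.2.1 ∧ p.2.1 0 = 1 ∧ 0 ∉ p.2.2 ∧ ∑ s ∈ p.2.2, |G (p.2.1 s)| < 1

/-- sets that are `δ`-dense in a translate of every finite family -/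
def Den (δ : ℝ) (A : Set ℤ) : Prop :=
  ∀ (H : Type) [Fintype H] (φ : H → ℤ), ∃ t : ℤ, ∃ F : Finset H,
    δ * Fintype.card H ≤ F.card ∧ ∀ y ∈ F, t + φ y ∈ A

lemma PD.avg {q d : ℕ} (z : Fin d → Circle) (hz : ∀ j, z j ^ q = 1) :
    PD q fun s => ∑ j, (((d : ℝ)⁻¹ : ℝ) : ℂ) * (z j : ℂ) ^ s :=
  ⟨Fin d, inferInstance, fun _ => (d : ℝ)⁻¹, z, fun _ => by positivity, hz, fun _ => rfl⟩

lemma avg_near {d : ℕ} (hd : 0 < d) (f g : Fin d → ℂ) {η : ℝ} (h : ∀ j, ‖f j - g j‖ ≤ η) :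
    ‖∑ j, (((d : ℝ)⁻¹ : ℝ) : ℂ) * f j - ∑ j, (((d : ℝ)⁻¹ : ℝ) : ℂ) * g j‖ ≤ η := by
  have h0 : (0 : ℝ) < d := by exact_mod_cast hd
  rw [← sum_sub_distrib]
  refine (norm_sum_le _ _).trans ?_
  calc ∑ j, ‖(((d : ℝ)⁻¹ : ℝ) : ℂ) * f j - (((d : ℝ)⁻¹ : ℝ) : ℂ) * g j‖
      ≤ ∑ _j : Fin d, (d : ℝ)⁻¹ * η := sum_le_sum fun j _ => by
        rw [← mul_sub, norm_mul, Complex.norm_real, Real.norm_of_nonneg (by positivity)]
        exact mul_le_mul_of_nonneg_left (h j) (by positivity)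
    _ = η := by
        rw [sum_const, card_univ, Fintype.card_fin, nsmul_eq_mul, mul_inv_cancel_left₀ h0.ne']

lemma sign_val (a b : ZMod 2) : |(a.val : ℤ) - b.val| ≤ 1 ∧
    (-1 : ℂ) ^ ((a.val : ℤ) - b.val) = 1 - 2 * ((if a + b = 1 then 1 else 0 : ℕ) : ℂ) := by
  have h0 : (0 : ZMod 2).val = 0 := rfl
  have h1 : (1 : ZMod 2).val = 1 := rfl
  have h2 : ¬ (1 + 1 : ZMod 2) = 1 := by decide
  rcases zmod2_cases a with rfl | rfl <;> rcases zmod2_cases b with rfl | rfl <;>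
    simp only [h0, h1, h2] <;> norm_num

lemma step {p : ℕ × (ℤ → ℂ) × Finset ℤ} (hp : Good p) (x : ℤ) {δ : ℝ} (hδ : 0 < δ) :
    ∃ p', Good p' ∧ p.2.2 ⊆ p'.2.2 ∧
      ∀ A, Den δ A → ∃ a ∈ A, ∃ b ∈ A, x - (a - b) ∈ p'.2.2 := by
  classical
  obtain ⟨q, c, F⟩ := p
  obtain ⟨hq, hc, hc0, hF0, hE⟩ := hp
  simp only at hq hc hc0 hF0 hE ⊢
  obtain ⟨r0, hr0⟩ := dense_cube δ hδ
  obtain ⟨r, hr⟩ : ∃ r, r = r0 + 1 := ⟨_, rfl⟩
  have hd : 0 < 16 * r := by omega
  obtain ⟨u, v, hu, hv, huv, hG⟩ := hc.split hc0 x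
  obtain ⟨M, hM⟩ : ∃ M : ℤ, ∀ s ∈ insert x F, |s| ≤ M := by
    obtain ⟨M, hM⟩ := ((insert x F).image fun s => |s|).bddAbove
    exact ⟨M, fun s hs => hM (mem_coe.2 (mem_image_of_mem _ hs))⟩
  let Ω := Fin (16 * r) → ZMod 2
  obtain ⟨K, hK⟩ : ∃ K : ℝ, K = 3 * (F.card + Fintype.card (Ω × Ω)) + 1 := ⟨_, rfl⟩
  have hK1 : 1 ≤ K := by
    have : (0 : ℝ) ≤ 3 * (F.card + Fintype.card (Ω × Ω)) := by positivity
    linarith
  have hE0 : 0 ≤ ∑ s ∈ F, |G (c s)| := sum_nonneg fun _ _ => abs_nonneg _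
  obtain ⟨η, hηK⟩ : ∃ η : ℝ, η * K = 1 - ∑ s ∈ F, |G (c s)| :=
    ⟨_ / K, div_mul_cancel₀ _ (by linarith)⟩
  have hη : 0 < η := by nlinarith
  have hη1 : η ≤ 1 := by nlinarith
  obtain ⟨Q, n, z, hQ, hqQ, hn, hz, hl⟩ := exists_lac hq M hη (16 * r)
  let lam : ℤ → ℂ := fun s => ∑ j, ((((16 * r : ℕ) : ℝ)⁻¹ : ℝ) : ℂ) * (z j : ℂ) ^ s
  have hdc : ((16 * r : ℕ) : ℂ) ≠ 0 := by exact_mod_cast hd.ne'
  have hone : ∑ _j : Fin (16 * r), ((((16 * r : ℕ) : ℝ)⁻¹ : ℝ) : ℂ) * 1 = 1 := by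
    rw [sum_const, card_univ, Fintype.card_fin, nsmul_eq_mul, mul_one, Complex.ofReal_inv,
      Complex.ofReal_natCast, mul_inv_cancel₀ hdc]
  have hl0 : lam 0 = 1 := by simpa only [lam, zpow_zero] using hone
  have hl1 : ∀ s ∈ F, ‖lam s - 1‖ ≤ η := by
    intro s hs
    rw [← hone]
    refine avg_near hd _ (fun _ => 1) fun j => ?_
    simpa using hl 0 s (hM s (mem_insert_of_mem hs)) (by simp) j
  let φ : Ω → ℤ := fun a => ∑ j, ((a j).val : ℤ) * n j
  have hφ : ∀ a, (q : ℤ) ∣ φ a := fun a => dvd_sum fun j _ => (hn j).mul_left _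
  have hl2 : ∀ a b : Ω, wt (a + b) = 12 * r → ‖lam (x - (φ a - φ b)) - (-1 / 2)‖ ≤ η := by
    intro a b hab
    have e1 : φ a - φ b = ∑ j, (((a j).val : ℤ) - (b j).val) * n j := by
      simp only [φ, ← sum_sub_distrib, sub_mul]
    have e2 : ∑ j, ((((16 * r : ℕ) : ℝ)⁻¹ : ℝ) : ℂ) * (-1 : ℂ) ^ (((a j).val : ℤ) - (b j).val) =
        -1 / 2 := by
      have e3 : ∑ j, ((if a j + b j = 1 then 1 else 0 : ℕ) : ℂ) = ((12 * r : ℕ) : ℂ) := by
        rw [← hab, ← Nat.cast_sum]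
        rfl
      simp only [(sign_val _ _).2]
      rw [← mul_sum, sum_sub_distrib, ← mul_sum, e3, sum_const, card_univ, Fintype.card_fin,
        nsmul_eq_mul, mul_one, Complex.ofReal_inv, Complex.ofReal_natCast,
        inv_mul_eq_iff_eq_mul₀ hdc]
      push_cast
      ring
    rw [e1, ← e2]
    exact avg_near hd _ _ fun j => hl (fun j => ((a j).val : ℤ) - (b j).val) x
      (hM x (mem_insert_self _ _)) (fun i => (sign_val _ _).1) j
  let R : Finset ℤ := (univ.filter fun p : Ω × Ω => wt (p.1 + p.2) = 12 * r).image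
    fun p => x - (φ p.1 - φ p.2)
  have hc' : PD Q fun s => u s + v s * lam s :=
    (hu.mono hqQ).add ((hv.mono hqQ).mul (PD.avg z hz))
  have h01 : u 0 + v 0 = 1 := by rw [← huv, hc0]
  have hre : (u 0).re + (v 0).re = 1 := by rw [← Complex.add_re, h01, Complex.one_re]
  have hu0 := (norm_nonneg _).trans (hu.norm_le 0)
  have hv1 : ∀ s, ‖v s‖ ≤ 1 := fun s => by linarith [hv.norm_le s]
  have hn' : ∀ s, ‖u s + v s * lam s‖ ≤ 1 := fun s => by
    have := hc'.norm_le s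
    simp only [hl0, mul_one, h01, Complex.one_re] at this
    exact this
  have hmul : ∀ s (t : ℂ), ‖t‖ ≤ η → ‖v s * t‖ ≤ η := fun s t ht => by
    rw [norm_mul]
    nlinarith [hv1 s, norm_nonneg t, norm_nonneg (v s)]
  have b1 : ∀ s ∈ F, |G (u s + v s * lam s)| ≤ |G (c s)| + 3 * η := by
    intro s hs
    have a1 := G_lip (z := c s) (by simpa [hc0] using hc.norm_le s) (hn' s)
    have a2 : u s + v s * lam s - c s = v s * (lam s - 1) := by rw [huv]; ring
    rw [a2] at a1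
    linarith [hmul s _ (hl1 s hs)]
  have b2 : ∀ s ∈ R, |G (u s + v s * lam s)| ≤ 3 * η := by
    intro s hs
    obtain ⟨p, hp, rfl⟩ := mem_image.1 hs
    have a0 : ‖u x - v x / 2‖ ≤ 1 := by
      have := norm_sub_le (u x) (v x / 2)
      rw [norm_div, Complex.norm_ofNat] at this
      linarith [hu.norm_le x, hv.norm_le x, norm_nonneg (v x)]
    have a1 := G_lip a0 (hn' (x - (φ p.1 - φ p.2)))
    have a3 : (q : ℤ) ∣ φ p.1 - φ p.2 := dvd_sub (hφ _) (hφ _)
    rw [hu.per x a3, hv.per x a3] at a1 ⊢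
    have a2 : u x + v x * lam (x - (φ p.1 - φ p.2)) - (u x - v x / 2) =
        v x * (lam (x - (φ p.1 - φ p.2)) - (-1 / 2)) := by ring
    rw [a2, hG, abs_zero] at a1
    linarith [hmul x _ (hl2 _ _ (mem_filter.1 hp).2)]
  refine ⟨(Q, fun s => u s + v s * lam s, F ∪ R), ⟨hQ, hc', by simp only [hl0, mul_one, h01],
    fun h => ?_, ?_⟩, subset_union_left, fun A hA => ?_⟩
  · rcases mem_union.1 h with h | h
    · exact hF0 h
    · obtain ⟨p, hp, e⟩ := mem_image.1 h
      have := hl2 _ _ (mem_filter.1 hp).2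
      rw [e, hl0] at this
      norm_num at this
      linarith
  · have c1 : ∑ s ∈ F ∪ R, |G (u s + v s * lam s)| ≤
        ∑ s ∈ F, |G (u s + v s * lam s)| + ∑ s ∈ R, |G (u s + v s * lam s)| := by
      rw [← sum_union_inter]
      exact le_add_of_nonneg_right (sum_nonneg fun _ _ => abs_nonneg _)
    have c2 := sum_le_sum b1
    have c3 := sum_le_sum b2
    rw [sum_add_distrib, sum_const, nsmul_eq_mul] at c2
    rw [sum_const, nsmul_eq_mul] at c3
    have c4 : (R.card : ℝ) ≤ Fintype.card (Ω × Ω) := by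
      exact_mod_cast card_image_le.trans (card_le_univ _)
    have c5 : (R.card : ℝ) * (3 * η) ≤ Fintype.card (Ω × Ω) * (3 * η) :=
      mul_le_mul_of_nonneg_right c4 (by positivity)
    rw [hK] at hηK
    simp only
    nlinarith
  · obtain ⟨t, D, hD, hDA⟩ := hA Ω φ
    obtain ⟨a, ha, b, hb, hab⟩ := hr0 r (by omega) (Fin (16 * r)) (Fintype.card_fin _) D 0
      (by
        rw [Fintype.card_fun, Fintype.card_fin, ZMod.card] at hD
        exact_mod_cast hD) (by simp)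
    rw [zero_add] at hab
    refine ⟨_, hDA a ha, _, hDA b hb, mem_union_right _ (mem_image.2
      ⟨(a, b), mem_filter.2 ⟨mem_univ _, hab⟩, ?_⟩)⟩
    ring

/-- a measure of bounded mass with constant transform on the finite set -/
lemma Good.exact {p : ℕ × (ℤ → ℂ) × Finset ℤ} (hp : Good p) :
    ∃ τ, PD 0 τ ∧ (τ 0).re ≤ 4 ∧ ∀ s ∈ p.2.2, τ s = -1 / 16 := by
  classical
  obtain ⟨q, c, F⟩ := p
  obtain ⟨-, hc, hc0, hF0, hE⟩ := hp
  simp only at hc hc0 hF0 hE ⊢
  have hc' := hc.mono (dvd_zero q)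
  have hev : ∀ s, G (c |s|) = G (c s) := by
    intro s
    rcases abs_choice s with h | h
    · rw [h]
    · rw [h, hc.neg]
      simp [G]
  obtain ⟨k, k1, k2, k3⟩ := exists_corr (F.image fun s => |s|) (by
    intro s hs
    obtain ⟨t, ht, rfl⟩ := mem_image.1 hs
    exact abs_pos.2 fun h => hF0 (h ▸ ht)) fun s => -G (c s)
  have hτ := (hc'.re.add (hc'.mul hc').re).add k1
  have h1 : ∀ s ∈ F, ((c |s|).re : ℂ) + ((c |s| * c |s|).re : ℂ) + k |s| = -1 / 16 := by
    intro s hs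
    rw [k3 _ (mem_image_of_mem _ hs), G]
    push_cast
    ring
  refine ⟨_, hτ, ?_, fun s hs => ?_⟩
  · have h2 : ∑ s ∈ F.image fun s => |s|, |(-G (c s))| ≤ ∑ s ∈ F, |G (c s)| := by
      refine (sum_image_le_of_nonneg fun _ _ => abs_nonneg _).trans_eq ?_
      exact sum_congr rfl fun s _ => by rw [abs_neg, hev]
    simp only [hc0, k2, Complex.add_re, Complex.ofReal_re, mul_one, Complex.one_re]
    linarith
  · rcases abs_choice s with h | h
    · simpa only [h] using h1 s hs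
    · have h2 := hτ.neg (-s)
      have h3 := h1 s hs
      rw [h] at h3
      rw [neg_neg, h3] at h2
      rw [h2]
      simp [map_div₀, map_ofNat]

lemma cont_pt (s : ℤ) : Continuous fun z : Circle => (z : ℂ) ^ s := by
  have : Continuous fun z : Circle => ((z ^ s : Circle) : ℂ) :=
    continuous_subtype_val.comp (continuous_zpow s)
  exact this

section measure

variable [MeasurableSpace Circle] [BorelSpace Circle]

lemma int_pt (s : ℤ) (μ : Measure Circle) [IsFiniteMeasure μ] :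
    Integrable (fun z : Circle => (z : ℂ) ^ s) μ :=
  Integrable.of_bound (cont_pt s).aestronglyMeasurable 1
    (Filter.Eventually.of_forall fun z => by simp [norm_zpow])

lemma PD.measure {τ : ℤ → ℂ} (h : PD 0 τ) :
    ∃ μ : FiniteMeasure Circle, ∀ s : ℤ, ∫ z, (z : ℂ) ^ s ∂(μ : Measure Circle) = τ s := by
  obtain ⟨ι, _, w, z, hw, -, hc⟩ := h
  refine ⟨⟨∑ i, (w i).toNNReal • Measure.dirac (z i), inferInstance⟩, fun s => ?_⟩
  rw [hc, FiniteMeasure.toMeasure_mk, integral_finsetSum_measure fun i _ => int_pt s _]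
  refine sum_congr rfl fun i _ => ?_
  rw [integral_smul_nnreal_measure, integral_dirac, NNReal.smul_def, Real.coe_toNNReal _ (hw i),
    Complex.real_smul]

lemma closed_pt (s : ℤ) (a : ℂ) :
    IsClosed {μ : FiniteMeasure Circle | ∫ z, (z : ℂ) ^ s ∂(μ : Measure Circle) = a} := by
  have h1 := FiniteMeasure.continuous_integral_continuousMap
    (⟨fun z : Circle => ((z : ℂ) ^ s).re, Complex.continuous_re.comp (cont_pt s)⟩ : C(Circle, ℝ))
  have h2 := FiniteMeasure.continuous_integral_continuousMap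
    (⟨fun z : Circle => ((z : ℂ) ^ s).im, Complex.continuous_im.comp (cont_pt s)⟩ : C(Circle, ℝ))
  convert (isClosed_eq h1 (continuous_const (y := a.re))).inter
    (isClosed_eq h2 (continuous_const (y := a.im))) using 1
  ext μ
  have e1 := integral_re (int_pt s (μ : Measure Circle))
  have e2 := integral_im (int_pt s (μ : Measure Circle))
  simp only [RCLike.re_to_complex, RCLike.im_to_complex] at e1 e2
  simp only [Set.mem_ofPred_eq, Set.mem_inter_iff, ContinuousMap.coe_mk, e1, e2, Complex.ext_iff]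

lemma exists_limit (F : ℕ → Finset ℤ) (hF : ∀ k, F k ⊆ F (k + 1))
    (h : ∀ k, ∃ τ, PD 0 τ ∧ (τ 0).re ≤ 4 ∧ ∀ s ∈ F k, τ s = -1 / 16) :
    ∃ μ : FiniteMeasure Circle, ∀ k, ∀ s ∈ F k,
      ∫ z, (z : ℂ) ^ s ∂(μ : Measure Circle) = -1 / 16 := by
  have hc : ∀ k, IsClosed {μ : FiniteMeasure Circle | ∀ s ∈ F k,
      ∫ z, (z : ℂ) ^ s ∂(μ : Measure Circle) = -1 / 16} := by
    intro k
    simp only [Set.ofPred_forall]
    exact isClosed_iInter fun s => isClosed_iInter fun _ => closed_pt s _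
  have hK := isCompact_setOfPred_finiteMeasure_le_of_compactSpace Circle 4
  obtain ⟨μ, hμ⟩ := IsCompact.nonempty_iInter_of_sequence_nonempty_isCompact_isClosed
    (fun k => {μ : FiniteMeasure Circle | μ.mass ≤ 4} ∩ {μ : FiniteMeasure Circle | ∀ s ∈ F k,
      ∫ z, (z : ℂ) ^ s ∂(μ : Measure Circle) = -1 / 16})
    (fun k μ hμ => ⟨hμ.1, fun s hs => hμ.2 s (hF k hs)⟩) (fun k => by
      obtain ⟨τ, h1, h2, h3⟩ := h k
      obtain ⟨μ, hμ⟩ := h1.measure
      refine ⟨μ, ?_, fun s hs => by rw [hμ, h3 s hs]⟩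
      have e := hμ 0
      simp only [zpow_zero, integral_const, Complex.real_smul, mul_one] at e
      rw [← e, Complex.ofReal_re] at h2
      have : ((μ.mass : ℝ)) ≤ 4 := h2
      exact_mod_cast this)
    (hK.inter_right (hc 0))
    (fun k => (isClosed_le FiniteMeasure.continuous_mass continuous_const).inter (hc k))
  exact ⟨μ, fun k => (Set.mem_iInter.1 hμ k).2⟩

end measure

/-- the character of the integers given by a point of the circle -/
noncomputable def chi (z : Circle) : PontryaginDual (Multiplicative ℤ) :=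
  ({ toFun := fun n => z ^ (Multiplicative.toAdd n)
     map_one' := zpow_zero z
     map_mul' := fun _ _ => zpow_add z _ _
     continuous_toFun := continuous_of_discreteTopology } : Multiplicative ℤ →ₜ* Circle)

lemma continuous_chi : Continuous chi := by
  apply ContinuousMonoidHom.continuous_of_continuous_uncurry
  rw [continuous_prod_of_discrete_right]
  exact fun n => continuous_zpow (Multiplicative.toAdd n)

lemma not_vdc_of (F : ℕ → Finset ℤ) (hF : ∀ k, F k ⊆ F (k + 1))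
    (h : ∀ k, ∃ τ, PD 0 τ ∧ (τ 0).re ≤ 4 ∧ ∀ s ∈ F k, τ s = -1 / 16) :
    ¬ IsVanDerCorput {s : ℤ | ∃ k, s ∈ F k} := by
  intro hv
  let _ : MeasurableSpace Circle := borel _
  have _ : BorelSpace Circle := ⟨rfl⟩
  let _ : MeasurableSpace (PontryaginDual (Multiplicative ℤ)) := borel _
  have _ : BorelSpace (PontryaginDual (Multiplicative ℤ)) := ⟨rfl⟩
  obtain ⟨μ, hμ⟩ := exists_limit F hF h
  have hmeas : Measurable chi := continuous_chi.measurable
  have key := hv ((Measure.dirac 1 + (16 : NNReal) • (μ : Measure Circle)).map chi) inferInstance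
    (by
      rintro s ⟨k, hs⟩
      have hc : Continuous fun χ : PontryaginDual (Multiplicative ℤ) =>
          ((χ (Multiplicative.ofAdd s) : Circle) : ℂ) := by
        have h1 : Continuous fun χ : (Multiplicative ℤ →ₜ* Circle) =>
            χ (Multiplicative.ofAdd s) := continuous_eval_const _
        have h2 : Continuous fun z : Circle => (z : ℂ) := continuous_subtype_val
        exact h2.comp h1
      rw [integral_map hmeas.aemeasurable hc.measurable.aestronglyMeasurable]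
      show ∫ z : Circle, (z : ℂ) ^ s ∂_ = 0
      rw [integral_add_measure (int_pt s _) (int_pt s _), integral_dirac,
        integral_smul_nnreal_measure, hμ k s hs, NNReal.smul_def, Complex.real_smul]
      norm_num)
  rw [Measure.map_apply hmeas (measurableSet_singleton _), Measure.add_apply,
    Measure.dirac_apply_of_mem (by
      show chi 1 = 1
      exact ContinuousMonoidHom.ext fun n => one_zpow _)] at key
  simp at key

theorem main : ∃ S : Set ℤ, (∀ A : Set ℤ, 0 < upperBanachDensity A → A - A + S = Set.univ) ∧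
    ¬ IsVanDerCorput S := by
  obtain ⟨e, he⟩ := exists_surjective_nat (ℤ × ℕ)
  choose nx h1 h2 h3 using fun (p : {p // Good p}) (k : ℕ) =>
    step p.2 (e k).1 (δ := 1 / (((e k).2 : ℝ) + 1)) (by positivity)
  let P : ℕ → {p // Good p} := fun k => Nat.rec
    ⟨(1, fun s => ((1 : Circle) : ℂ) ^ s, ∅), one_pos, PD.pt 1 (one_pow _), by simp, by simp,
      by simp⟩ (fun k p => ⟨nx p k, h1 p k⟩) k
  refine ⟨{s | ∃ k, s ∈ (P k).1.2.2}, fun A hA => Set.eq_univ_of_forall fun x => ?_,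
    not_vdc_of _ (fun k => h2 (P k) k) fun k => (P k).2.exact⟩
  obtain ⟨δ, hδ, hA⟩ := exists_coset A hA
  obtain ⟨n, hn⟩ := exists_nat_one_div_lt hδ
  obtain ⟨k, hk⟩ := he (x, n)
  obtain ⟨a, ha, b, hb, hab⟩ := h3 (P k) k A (by
    intro H _ φ
    obtain ⟨t, D, hD, hDA⟩ := hA H φ
    refine ⟨t, D, le_trans (mul_le_mul_of_nonneg_right ?_ (by positivity)) hD, hDA⟩
    rw [hk]
    exact hn.le)
  rw [hk] at hab
  exact ⟨a - b, Set.sub_mem_sub ha hb, x - (a - b), ⟨k + 1, hab⟩, by simp⟩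

end Pool.Agent.P.MP_f7f1a6_co.Z
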